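import Mathlib
import Pool.Agent.Helper178.IdxUp

/-!
# Rational index, arithmetic version: the violations and the bound for the height
-/

set_option autoImplicit false

namespace Pool.Agent.Y668.RI

open Pool.Agent.Helper178.Idx

/-- The violations of the arithmetic version with the increment `κ`. -/
def V2 (κ : ℕ) (w : List X3) : Prop :=
  ∃ (α : List X3) (e : ℕ) (v : List X3) (E : ℕ), 1 ≤ E ∧ FB v E ∧
    ((w = α ++ (rp e lx ++ v) ∧ 1 ≤ e ∧ E < e + κ) ∨
      ∃ b, w = α ++ (rp e lx ++ (rp (b + 1) lz ++ v)) ∧ E < e)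

theorem V2.right {κ : ℕ} {w : List X3} (h : V2 κ w) (β : List X3) : V2 κ (w ++ β) := by
  obtain ⟨α, e, v, E, h1, ⟨a, t, r, ht, rfl⟩, h2⟩ := h
  refine ⟨α, e, rp (a + 1) ly ++ (rp E lx ++ t :: (r ++ β)), E, h1, ⟨a, t, r ++ β, ht, rfl⟩, ?_⟩
  rcases h2 with ⟨rfl, h2⟩ | ⟨b, rfl, h2⟩
  · exact Or.inl ⟨by simp, h2⟩
  · exact Or.inr ⟨b, by simp, h2⟩

theorem V2.left {κ : ℕ} {w : List X3} (h : V2 κ w) (α' : List X3) : V2 κ (α' ++ w) := by
  obtain ⟨α, e, v, E, h1, h3, h2⟩ := h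
  refine ⟨α' ++ α, e, v, E, h1, h3, ?_⟩
  rcases h2 with ⟨rfl, h2⟩ | ⟨b, rfl, h2⟩
  · exact Or.inl ⟨by simp, h2⟩
  · exact Or.inr ⟨b, by simp, h2⟩

theorem V2_short {κ : ℕ} (hκ : 1 ≤ κ) {σ : Type} [Fintype σ] {st : σ → X3 → σ → Prop}
    {w : List X3} {p q : σ} (hw : V2 κ w) (h : Run st p w q) :
    ∃ w', V2 κ w' ∧ Run st p w' q ∧ w'.length ≤ 7 * Fintype.card σ + 1 := by
  set N := Fintype.card σ with hN
  obtain ⟨α, e, v, E, h1, ⟨a, t, r, ht, rfl⟩, h2⟩ := hw
  have hN1 : 1 ≤ N := Fintype.card_pos_iff.mpr ⟨p⟩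
  have tail : ∀ s : σ, Run st s (rp (a + 1) ly ++ (rp E lx ++ t :: r)) q →
      ∃ v' E', 1 ≤ E' ∧ E' ≤ E ∧ E' ≤ N ∧ FB v' E' ∧ Run st s v' q ∧
        v'.length ≤ 3 * N + 1 := by
    intro s hs
    obtain ⟨s1, h3, h4⟩ := (Run_append _ _ _ _).mp hs
    obtain ⟨s2, h5, s3, h6, h7⟩ := (Run_append _ _ _ _).mp h4
    obtain ⟨a', ha1, ha2, _, h8⟩ := Run_block h3 1 (by omega)
    obtain ⟨E', hE1, hE2, hE3, h9⟩ := Run_block h5 1 h1
    obtain ⟨r', hr1, h10⟩ := Run_short h7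
    obtain ⟨a'', rfl⟩ : ∃ a'', a' = a'' + 1 := ⟨a' - 1, by omega⟩
    refine ⟨rp (a'' + 1) ly ++ (rp E' lx ++ t :: r'), E', hE1, hE3, by omega,
      ⟨a'', t, r', ht, rfl⟩, ?_, ?_⟩
    · exact (Run_append _ _ _ _).mpr ⟨s1, h8, (Run_append _ _ _ _).mpr ⟨s2, h9, s3, h6, h10⟩⟩
    · simp only [rp, List.length_append, List.length_replicate, List.length_cons]
      omega
  rcases h2 with ⟨rfl, h2⟩ | ⟨b, rfl, h2⟩
  · obtain ⟨s0, h3, h4⟩ := (Run_append _ _ _ _).mp h
    obtain ⟨s1, h5, h6⟩ := (Run_append _ _ _ _).mp h4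
    obtain ⟨α', hα, h7⟩ := Run_short h3
    obtain ⟨v', E', g1, g2, g3, g4, g5, g6⟩ := tail s1 h6
    have he : ∃ e', (1 ≤ e' ∧ E' < e' + κ) ∧ e' ≤ 2 * N ∧ Run st s0 (rp e' lx) s1 := by
      by_cases he : e ≤ 2 * N
      · exact ⟨e, by omega, he, h5⟩
      · obtain ⟨e', k1, k2, _, k3⟩ := Run_block h5 N (by omega)
        exact ⟨e', ⟨by omega, by omega⟩, by omega, k3⟩
    obtain ⟨e', k1, k2, k3⟩ := he
    refine ⟨α' ++ (rp e' lx ++ v'), ⟨α', e', v', E', g1, g4, Or.inl ⟨rfl, k1⟩⟩, ?_, ?_⟩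
    · exact (Run_append _ _ _ _).mpr ⟨s0, h7, (Run_append _ _ _ _).mpr ⟨s1, k3, g5⟩⟩
    · simp only [rp, List.length_append, List.length_replicate]
      omega
  · obtain ⟨s0, h3, h4⟩ := (Run_append _ _ _ _).mp h
    obtain ⟨s1, h5, h6⟩ := (Run_append _ _ _ _).mp h4
    obtain ⟨s2, h6', h6⟩ := (Run_append _ _ _ _).mp h6
    obtain ⟨α', hα, h7⟩ := Run_short h3
    obtain ⟨v', E', g1, g2, g3, g4, g5, g6⟩ := tail s2 h6
    obtain ⟨b', hb1, hb2, _, h8⟩ := Run_block h6' 1 (by omega)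
    obtain ⟨b'', rfl⟩ : ∃ b'', b' = b'' + 1 := ⟨b' - 1, by omega⟩
    have he : ∃ e', E' < e' ∧ e' ≤ 2 * N ∧ Run st s0 (rp e' lx) s1 := by
      by_cases he : e ≤ 2 * N
      · exact ⟨e, by omega, he, h5⟩
      · obtain ⟨e', k1, k2, _, k3⟩ := Run_block h5 (N + 1) (by omega)
        exact ⟨e', by omega, by omega, k3⟩
    obtain ⟨e', k1, k2, k3⟩ := he
    refine ⟨α' ++ (rp e' lx ++ (rp (b'' + 1) lz ++ v')),
      ⟨α', e', v', E', g1, g4, Or.inr ⟨b'', rfl, k1⟩⟩, ?_, ?_⟩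
    · exact (Run_append _ _ _ _).mpr ⟨s0, h7, (Run_append _ _ _ _).mpr ⟨s1, k3,
        (Run_append _ _ _ _).mpr ⟨s2, h8, g5⟩⟩⟩
    · simp only [rp, List.length_append, List.length_replicate]
      omega

/-! ### stacks of frames -/

section

variable (κ : ℕ) {σ : Type} (st : σ → X3 → σ → Prop) (Re Co : σ → Prop)

/-- to the left of `s`: a block of length at most `F` is a violation -/
def Lft (s : σ) (F : ℕ) : Prop :=
  ∃ p0 α, Re p0 ∧ Run st p0 α s ∧ ∀ (c : ℕ) (t : X3) (r : List X3), 1 ≤ c → c ≤ F → t ≠ lx →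
    V2 κ (α ++ (rp c lx ++ t :: r))

/-- to the right of `s`: a block of length greater than `E - κ` is a violation -/
def Rgt (s : σ) (E : ℕ) : Prop :=
  ∃ q0 t r, Co q0 ∧ Run st s (t :: r) q0 ∧ t ≠ lx ∧
    ∀ c : ℕ, 1 ≤ c → E < c + κ → V2 κ (rp c lx ++ t :: r)

/-- the open blocks -/
structure Good (h : ℕ) (f E : ℕ → ℕ) (s s' : ℕ → σ) : Prop where
  re : ∀ i < h, Re (s i)
  run : ∀ i < h, Run st (s i) (rp (f i) lx) (s' i)
  pos : ∀ i < h, 1 ≤ f i
  lt : ∀ i < h, f i + κ ≤ E i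
  rgt : ∀ i < h, Rgt κ st Co (s' i) (E i)
  lft : ∀ i, i + 1 < h → Lft κ st Re (s (i + 1)) (f i)
  le : ∀ i, i + 1 < h → E i ≤ f (i + 1)

end

section

variable {κ : ℕ} {σ : Type} {st : σ → X3 → σ → Prop} {Re Co : σ → Prop}

theorem Good.mono {h : ℕ} {f E : ℕ → ℕ} {s s' : ℕ → σ} (g : Good κ st Re Co h f E s s') (i j : ℕ)
    (hij : i ≤ j) (hj : j < h) : f i ≤ f j := by
  induction j, hij using Nat.le_induction with
  | base => exact le_refl _
  | succ j hij ih =>
    have h1 := ih (by omega)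
    have h2 := g.lt j (by omega)
    have h3 := g.le j hj
    omega

theorem Good.ge {h : ℕ} {f E : ℕ → ℕ} {s s' : ℕ → σ} (g : Good κ st Re Co h f E s s') (i : ℕ)
    (hi : i < h) : κ * i + 1 ≤ f i := by
  induction i with
  | zero => exact g.pos 0 hi
  | succ i ih =>
    have h1 := ih (by omega)
    have h2 := g.lt i (by omega)
    have h3 := g.le i hi
    rw [Nat.mul_succ]
    omega

/-- the states along a block -/
theorem path_of_run (n : ℕ) : ∀ (p q : σ), Run st p (rp n lx) q →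
    ∃ c : ℕ → σ, c 0 = p ∧ c n = q ∧ ∀ t < n, st (c t) lx (c (t + 1)) := by
  induction n with
  | zero =>
    intro p q h
    have h' : p = q := h
    exact ⟨fun _ => p, rfl, h', fun t ht => absurd ht (Nat.not_lt_zero t)⟩
  | succ n ih =>
    rintro p q ⟨r, h1, h2⟩
    obtain ⟨c, h3, h4, h5⟩ := ih r q h2
    refine ⟨fun t => if t = 0 then p else c (t - 1), if_pos rfl, ?_, ?_⟩
    · show (if n + 1 = 0 then p else c (n + 1 - 1)) = q
      rw [if_neg (by omega), Nat.add_sub_cancel]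
      exact h4
    · intro t ht
      show st (if t = 0 then p else c (t - 1)) lx (if t + 1 = 0 then p else c (t + 1 - 1))
      rw [if_neg (by omega : ¬ t + 1 = 0), Nat.add_sub_cancel]
      by_cases h0 : t = 0
      · subst h0
        rw [if_pos rfl, h3]
        exact h1
      · rw [if_neg h0]
        have := h5 (t - 1) (by omega)
        rwa [show t - 1 + 1 = t by omega] at this

theorem run_of_path {n : ℕ} {c : ℕ → σ} (h : ∀ t < n, st (c t) lx (c (t + 1))) (k : ℕ) :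
    ∀ t, t + k ≤ n → Run st (c t) (rp k lx) (c (t + k)) := by
  induction k with
  | zero => intro t _; rfl
  | succ k ih =>
    intro t ht
    have := ih (t + 1) (by omega)
    rw [show t + 1 + k = t + (k + 1) by omega] at this
    exact ⟨_, h t (by omega), this⟩

/-- The number of open blocks is at most twice the square root of the number of states. -/
theorem Good.bound [Fintype σ] (hκ : 1 ≤ κ) (hNV : ∀ p w q, Re p → Co q → Run st p w q → ¬ V2 κ w) {h : ℕ}
    {f E : ℕ → ℕ} {s s' : ℕ → σ} (g : Good κ st Re Co h f E s s') :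
    ((h + 1) / 2 - 1) * ((h + 1) / 2 - 1) ≤ Fintype.card σ / κ := by
  classical
  have h1 : ∀ i < h, ∃ c : ℕ → σ, c 0 = s i ∧ c (f i) = s' i ∧
      ∀ t < f i, st (c t) lx (c (t + 1)) := fun i hi => path_of_run _ _ _ (g.run i hi)
  have hne : Nonempty σ := ⟨s 0⟩
  choose! c hc0 hc1 hc2 using h1
  have ru : ∀ i < h, ∀ t k, t + k ≤ f i → Run st (c i t) (rp k lx) (c i (t + k)) :=
    fun i hi t k hk => run_of_path (hc2 i hi) k t hk
  -- different frames
  have far : ∀ i j, i + 2 ≤ j → j < h → ∀ t < f i, ∀ t' < f j, c i t ≠ c j t' := by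
    intro i j hij hj t ht t' ht' he
    obtain ⟨j', rfl⟩ : ∃ j', j = j' + 1 := ⟨j - 1, by omega⟩
    obtain ⟨p0, α, r1, r2, r3⟩ := g.lft j' hj
    obtain ⟨q0, t0, r0, q1, q2, q3, q4⟩ := g.rgt i (by omega)
    have e1 := ru (j' + 1) hj 0 t' (by omega)
    rw [hc0 _ hj, Nat.zero_add] at e1
    have e2 := ru i (by omega) t (f i - t) (by omega)
    rw [show t + (f i - t) = f i by omega, hc1 i (by omega), he] at e2
    have e3 : Run st (s (j' + 1)) (rp (t' + (f i - t)) lx) (s' i) := by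
      rw [rp, List.replicate_add]
      exact (Run_append _ _ _ _).mpr ⟨_, e1, e2⟩
    have e4 : Run st p0 (α ++ (rp (t' + (f i - t)) lx ++ t0 :: r0)) q0 :=
      (Run_append _ _ _ _).mpr ⟨_, r2, (Run_append _ _ _ _).mpr ⟨_, e3, q2⟩⟩
    rcases le_or_gt (t' + (f i - t)) (f j') with h5 | h5
    · exact hNV _ _ _ r1 q1 e4 (r3 _ t0 r0 (by omega) h5 q3)
    · have h6 := g.mono (i + 1) j' (by omega) (by omega)
      have h7 := g.le i (by omega)
      exact hNV _ _ _ r1 q1 e4 ((q4 _ (by omega) (by omega)).left α)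
  -- the same frame
  have same : ∀ i < h, ∀ t < f i, ∀ t' < f i, t < t' → c i t ≠ c i t' := by
    intro i hi t ht t' ht' htt he
    obtain ⟨q0, t0, r0, q1, q2, q3, q4⟩ := g.rgt i hi
    have e1 := ru i hi 0 t (by omega)
    rw [hc0 _ hi, Nat.zero_add] at e1
    have e2 := ru i hi t' (f i - t') (by omega)
    rw [show t' + (f i - t') = f i by omega, hc1 i hi] at e2
    have e3 := ru i hi t (t' - t) (by omega)
    rw [show t + (t' - t) = t' by omega, ← he] at e3
    have e4 : ∀ k : ℕ, Run st (c i t) (rp (k * (t' - t)) lx) (c i t) := by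
      intro k
      induction k with
      | zero => rw [Nat.zero_mul]; rfl
      | succ k ih =>
        rw [Nat.succ_mul, rp, List.replicate_add]
        exact (Run_append _ _ _ _).mpr ⟨_, ih, e3⟩
    rw [← he] at e2
    have e5 : Run st (s i) (rp (t + (E i * (t' - t) + (f i - t'))) lx) (s' i) := by
      rw [rp, List.replicate_add, List.replicate_add]
      exact (Run_append _ _ _ _).mpr ⟨_, e1, (Run_append _ _ _ _).mpr ⟨_, e4 _, e2⟩⟩
    have e6 : E i ≤ t + (E i * (t' - t) + (f i - t')) := by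
      have : E i * 1 ≤ E i * (t' - t) := Nat.mul_le_mul_left _ (by omega)
      omega
    exact hNV _ _ _ (g.re i hi) q1 ((Run_append _ _ _ _).mpr ⟨_, e5, q2⟩)
      (q4 _ (by omega) (by omega))
  -- counting
  set m := (h + 1) / 2 with hm
  have hcard : ((Finset.range m).sigma fun k => Finset.range (f (2 * k))).card ≤
      Fintype.card σ := by
    rw [← Finset.card_univ (α := σ)]
    refine Finset.card_le_card_of_injOn (fun x => c (2 * x.1) x.2) (fun _ _ => Finset.mem_univ _) ?_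
    rintro ⟨k, t⟩ hx ⟨k', t'⟩ hy he
    simp only [Finset.coe_sigma, Set.mem_sigma_iff, Finset.mem_coe, Finset.mem_range] at hx hy
    have he' : c (2 * k) t = c (2 * k') t' := he
    rcases lt_trichotomy k k' with h2 | h2 | h2
    · exact absurd he' (far (2 * k) (2 * k') (by omega) (by omega) t hx.2 t' hy.2)
    · subst h2
      rcases lt_trichotomy t t' with h3 | h3 | h3
      · exact absurd he' (same (2 * k) (by omega) t hx.2 t' hy.2 h3)
      · rw [h3]
      · exact absurd he'.symm (same (2 * k) (by omega) t' hy.2 t hx.2 h3)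
    · exact absurd he'.symm (far (2 * k') (2 * k) (by omega) (by omega) t' hy.2 t hx.2)
  rw [Finset.card_sigma] at hcard
  simp only [Finset.card_range] at hcard
  have h3 : ∑ k ∈ Finset.range m, (κ * (2 * k) + 1) ≤ ∑ k ∈ Finset.range m, f (2 * k) :=
    Finset.sum_le_sum fun k hk => g.ge (2 * k) (by
      have := Finset.mem_range.1 hk
      omega)
  have h4 : ∀ n : ℕ, ∑ k ∈ Finset.range (n + 1), (κ * (2 * k) + 1) = κ * (n * (n + 1)) + n + 1 := by
    intro n
    induction n with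
    | zero => simp
    | succ n ih => rw [Finset.sum_range_succ, ih]; ring
  rcases Nat.eq_zero_or_pos m with h0 | h0
  · rw [h0]; simp
  · obtain ⟨m', hm'⟩ : ∃ m', m = m' + 1 := ⟨m - 1, by omega⟩
    rw [hm', h4] at h3
    rw [hm'] at hcard ⊢
    rw [Nat.add_sub_cancel, Nat.le_div_iff_mul_le hκ]
    nlinarith

/-- pushing a frame -/
theorem Good.push {h : ℕ} {f E : ℕ → ℕ} {s s' : ℕ → σ} (g : Good κ st Re Co h f E s s')
    (f0 E0 : ℕ) (a b : σ) (h1 : Re a) (h2 : Run st a (rp f0 lx) b) (h3 : 1 ≤ f0) (h4 : f0 + κ ≤ E0)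
    (h5 : Rgt κ st Co b E0) (h6 : ∀ i, h = i + 1 → Lft κ st Re a (f i) ∧ E i ≤ f0) :
    Good κ st Re Co (h + 1) (Function.update f h f0) (Function.update E h E0)
      (Function.update s h a) (Function.update s' h b) := by
  have up : ∀ {β : Type} (F : ℕ → β) (x : β) (i : ℕ), i < h → Function.update F h x i = F i :=
    fun F x i hi => Function.update_of_ne (by omega) _ _
  constructor
  · intro i hi
    rcases Nat.lt_succ_iff_lt_or_eq.1 hi with h7 | rfl
    · rw [up _ _ _ h7]; exact g.re i h7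
    · rw [Function.update_self]; exact h1
  · intro i hi
    rcases Nat.lt_succ_iff_lt_or_eq.1 hi with h7 | rfl
    · rw [up _ _ _ h7, up _ _ _ h7, up _ _ _ h7]; exact g.run i h7
    · rw [Function.update_self, Function.update_self, Function.update_self]; exact h2
  · intro i hi
    rcases Nat.lt_succ_iff_lt_or_eq.1 hi with h7 | rfl
    · rw [up _ _ _ h7]; exact g.pos i h7
    · rw [Function.update_self]; exact h3
  · intro i hi
    rcases Nat.lt_succ_iff_lt_or_eq.1 hi with h7 | rfl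
    · rw [up _ _ _ h7, up _ _ _ h7]; exact g.lt i h7
    · rw [Function.update_self, Function.update_self]; exact h4
  · intro i hi
    rcases Nat.lt_succ_iff_lt_or_eq.1 hi with h7 | rfl
    · rw [up _ _ _ h7, up _ _ _ h7]; exact g.rgt i h7
    · rw [Function.update_self, Function.update_self]; exact h5
  · intro i hi
    rw [up f _ i (by omega)]
    rcases Nat.lt_succ_iff_lt_or_eq.1 hi with h7 | h7
    · rw [up _ _ _ h7]; exact g.lft i h7
    · rw [h7, Function.update_self]; exact (h6 i h7.symm).1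
  · intro i hi
    rw [up E _ i (by omega)]
    rcases Nat.lt_succ_iff_lt_or_eq.1 hi with h7 | h7
    · rw [up _ _ _ h7]; exact g.le i h7
    · rw [h7, Function.update_self]; exact (h6 i h7.symm).2

/-- the context to the left of a forest -/
def PreC (κ : ℕ) (st : σ → X3 → σ → Prop) (Re : σ → Prop) (p : σ) (F : ℕ) : Prop :=
  ∃ p0 α, Re p0 ∧ Run st p0 α p ∧ ∀ (n c : ℕ) (t : X3) (r : List X3), 1 ≤ c → c ≤ F → t ≠ lx →
    V2 κ (α ++ (rp (n + 1) ly ++ (rp c lx ++ t :: r)))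

theorem height2 (hκ : 1 ≤ κ) (hRe : ∀ p w q, Re p → Run st p w q → Re q)
    (hCo : ∀ p w q, Co q → Run st p w q → Co p)
    (hNV : ∀ p w q, Re p → Co q → Run st p w q → ¬ V2 κ w) (H : ℕ)
    (hH : ∀ (h : ℕ) (f E : ℕ → ℕ) (s s' : ℕ → σ), Good κ st Re Co h f E s s' → h < H)
    {w : List X3} (hw : D w) :
    ∀ (p q : σ) (h F G : ℕ) (f E : ℕ → ℕ) (s s' : ℕ → σ), Good κ st Re Co h f E s s' →
      (∀ i, h = i + 1 → F = f i ∧ G = E i) → (F = 0 ∨ F < G) → Re p → Co q → Run st p w q →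
      PreC κ st Re p F → (∀ E' ≥ 1, FB w E' → G ≤ E') → Dh (H - h) w := by
  induction hw with
  | nil => intro p q h F G f E s s' _ _ _ _ _ _ _ _; exact .nil _
  | node n e u v hu hv ihu ihv =>
    intro p q h F G f E s s' g hFG1 hFG2 hp hq hr hpre hG
    obtain ⟨s1, g1, hr⟩ := (Run_append _ _ _ _).mp hr
    obtain ⟨s2, g2, hr⟩ := (Run_append _ _ _ _).mp hr
    obtain ⟨s3, g3, hr⟩ := (Run_append _ _ _ _).mp hr
    obtain ⟨s4, g4, hr⟩ := (Run_append _ _ _ _).mp hr
    obtain ⟨s5, g5, g6⟩ := (Run_append _ _ _ _).mp hr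
    have r1 := hRe _ _ _ hp g1
    have r2 := hRe _ _ _ r1 g2
    have r3 := hRe _ _ _ r2 g3
    have r4 := hRe _ _ _ r3 g4
    have r5 := hRe _ _ _ r4 g5
    have c5 := hCo _ _ _ hq g6
    have c4 := hCo _ _ _ c5 g5
    have c3 := hCo _ _ _ c4 g4
    have c2 := hCo _ _ _ c3 g3
    have c1 := hCo _ _ _ c2 g2
    have hlt := hH h f E s s' g
    obtain ⟨H', hH'⟩ : ∃ H', H - h = H' + 1 := ⟨H - h - 1, by omega⟩
    -- the part `v`
    have hv' : Dh (H - h) v := by
      rcases D_first hu with rfl | ⟨E0, hE0, hfb0⟩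
      · have g3' : s2 = s3 := g3
        subst g3'
        have hG2 : G ≤ e + 1 + (e + 1) := hG (e + 1 + (e + 1)) (by omega)
          ⟨n, lz, rp n lz ++ v, by decide, by
            simp only [rp, List.replicate_add, List.append_assoc, List.nil_append,
              List.replicate_succ, List.cons_append]⟩
        have gg : Run st s1 (rp (e + 1 + (e + 1)) lx) s4 := by
          rw [rp, List.replicate_add]
          exact (Run_append _ _ _ _).mpr ⟨s2, g2, g4⟩
        refine ihv s5 q h F G f E s s' g hFG1 hFG2 r5 hq g6 ?_ ?_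
        · refine ⟨s1, rp (e + 1 + (e + 1)) lx ++ rp (n + 1) lz, r1,
            (Run_append _ _ _ _).mpr ⟨s4, gg, g5⟩, ?_⟩
          intro n' c t r hc1 hc2 ht
          refine ⟨[], e + 1 + (e + 1), rp (n' + 1) ly ++ (rp c lx ++ t :: r), c, hc1,
            ⟨n', t, r, ht, rfl⟩, Or.inr ⟨n, by simp, by omega⟩⟩
        · intro E' hE' hfb
          by_contra hcon
          refine hNV s1 (rp (e + 1 + (e + 1)) lx ++ (rp (n + 1) lz ++ v)) q r1 hq ?_ ?_
          · exact (Run_append _ _ _ _).mpr ⟨s4, gg, (Run_append _ _ _ _).mpr ⟨s5, g5, g6⟩⟩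
          · exact ⟨[], e + 1 + (e + 1), v, E', hE', hfb, Or.inr ⟨n, rfl, by omega⟩⟩
      · have hG2 : G ≤ e + 1 := by
          obtain ⟨a, t, r, ht, rfl⟩ := hfb0
          exact hG (e + 1) (by omega) ⟨n, ly, rp a ly ++ (rp E0 lx ++ t :: r) ++
            (rp (e + 1) lx ++ (rp (n + 1) lz ++ v)), by decide, by
            simp [rp, List.replicate_succ]⟩
        refine ihv s5 q h F G f E s s' g hFG1 hFG2 r5 hq g6 ?_ ?_
        · refine ⟨s3, rp (e + 1) lx ++ rp (n + 1) lz, r3,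
            (Run_append _ _ _ _).mpr ⟨s4, g4, g5⟩, ?_⟩
          intro n' c t r hc1 hc2 ht
          refine ⟨[], e + 1, rp (n' + 1) ly ++ (rp c lx ++ t :: r), c, hc1,
            ⟨n', t, r, ht, rfl⟩, Or.inr ⟨n, by simp, by omega⟩⟩
        · intro E' hE' hfb
          by_contra hcon
          refine hNV s3 (rp (e + 1) lx ++ (rp (n + 1) lz ++ v)) q r3 hq ?_ ?_
          · exact (Run_append _ _ _ _).mpr ⟨s4, g4, (Run_append _ _ _ _).mpr ⟨s5, g5, g6⟩⟩
          · exact ⟨[], e + 1, v, E', hE', hfb, Or.inr ⟨n, rfl, by omega⟩⟩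
    -- the part `u`
    have hu' : Dh H' u := by
      by_cases hne : ∃ E0, 1 ≤ E0 ∧ FB u E0
      · classical
        obtain ⟨E0, hE0, hmin⟩ : ∃ E0, (1 ≤ E0 ∧ FB u E0) ∧ ∀ E' ≥ 1, FB u E' → E0 ≤ E' :=
          ⟨Nat.find hne, Nat.find_spec hne, fun E' h1 h2 => Nat.find_min' hne ⟨h1, h2⟩⟩
        obtain ⟨hE0, hfb0⟩ := hE0
        have hfb1 := hfb0
        have hG2 : G ≤ e + 1 := by
          obtain ⟨a, t, r, ht, rfl⟩ := hfb0
          exact hG (e + 1) (by omega) ⟨n, ly, rp a ly ++ (rp E0 lx ++ t :: r) ++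
            (rp (e + 1) lx ++ (rp (n + 1) lz ++ v)), by decide, by
            simp [rp, List.replicate_succ]⟩
        have hlt2 : e + 1 + κ ≤ E0 := by
          by_contra hcon
          refine hNV s1 (rp (e + 1) lx ++ u) s3 r1 c3 ((Run_append _ _ _ _).mpr ⟨s2, g2, g3⟩) ?_
          exact ⟨[], e + 1, u, E0, hE0, hfb0, Or.inl ⟨rfl, by omega, by omega⟩⟩
        have hrg : Rgt κ st Co s2 E0 := by
          have hu2 : ∃ r, u = ly :: r := by
            obtain ⟨a, t, r, ht, rfl⟩ := hfb1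
            exact ⟨rp a ly ++ (rp E0 lx ++ t :: r), by simp [rp, List.replicate_succ]⟩
          obtain ⟨r, hr2⟩ := hu2
          refine ⟨s3, ly, r, c3, ?_, by decide, ?_⟩
          · rw [← hr2]; exact g3
          · intro c hc1 hc
            rw [← hr2]
            exact ⟨[], c, u, E0, hE0, hfb0, Or.inl ⟨rfl, hc1, hc⟩⟩
        have hlf : ∀ i, h = i + 1 → Lft κ st Re s1 (f i) ∧ E i ≤ e + 1 := by
          intro i hi
          obtain ⟨hF, hGE⟩ := hFG1 i hi
          refine ⟨?_, by omega⟩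
          obtain ⟨p0, α, k1, k2, k3⟩ := hpre
          refine ⟨p0, α ++ rp (n + 1) ly, k1, (Run_append _ _ _ _).mpr ⟨p, k2, g1⟩, ?_⟩
          intro c t r hc1 hc2 ht
          have := k3 n c t r hc1 (by omega) ht
          rw [List.append_assoc]
          exact this
        have g' := g.push (e + 1) E0 s1 s2 r1 g2 (by omega) hlt2 hrg hlf
        have := ihu s2 s3 (h + 1) (e + 1) E0 _ _ _ _ g' (by
            intro i hi
            have hi' : i = h := by omega
            subst hi'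
            rw [Function.update_self, Function.update_self]
            exact ⟨rfl, rfl⟩) (Or.inr (by omega)) r2 c3 g3 ⟨s1, rp (e + 1) lx, r1, g2, by
              intro n' c t r hc1 hc2 ht
              exact ⟨[], e + 1, rp (n' + 1) ly ++ (rp c lx ++ t :: r), c, hc1,
                ⟨n', t, r, ht, rfl⟩, Or.inl ⟨by simp, by omega, by omega⟩⟩⟩ hmin
        rwa [show H - (h + 1) = H' by omega] at this
      · rcases D_first hu with rfl | ⟨E0, hE0, hfb0⟩
        · exact .nil _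
        · exact absurd ⟨E0, hE0, hfb0⟩ hne
    rw [hH'] at hv' ⊢
    exact .node H' n e u v hu' hv'

end

/-- The language of the arithmetic version. -/
def Lang2 (κ : ℕ) : Language X3 := {w | D w ∨ V2 κ w}

/-- The upper bound. -/
def UB2 (κ N : ℕ) : ℕ := 7 * N + 1 + Bd N (2 * Nat.sqrt (N / κ) + 3)

theorem upper2 {κ : ℕ} (hκ : 1 ≤ κ) {σ : Type} [Fintype σ] (M : NFA X3 σ) {w : List X3}
    (hw : w ∈ Lang2 κ) (hM : w ∈ M.accepts) :
    ∃ w' ∈ Lang2 κ, w' ∈ M.accepts ∧ w'.length ≤ UB2 κ (Fintype.card σ) := by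
  set st : σ → X3 → σ → Prop := fun p a q => q ∈ M.step p a with hst
  by_cases hV : ∃ w, V2 κ w ∧ w ∈ M.accepts
  · obtain ⟨w, hwV, q, hq, hrun⟩ := hV
    obtain ⟨p, hp, hrun⟩ := (Run_nfa M w _ q).mp hrun
    obtain ⟨w', h1, h2, h3⟩ := V2_short hκ hwV hrun
    refine ⟨w', Or.inr h1, ⟨q, hq, (Run_nfa M w' _ q).mpr ⟨p, hp, h2⟩⟩, ?_⟩
    unfold UB2
    omega
  · push Not at hV
    have hD : D w := by
      rcases hw with h | h
      · exact h
      · exact absurd hM (hV w h)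
    obtain ⟨q, hq, hrun⟩ := hM
    obtain ⟨p, hp, hrun⟩ := (Run_nfa M w _ q).mp hrun
    have hNV : ∀ (r : σ) (w : List X3) (r' : σ), (∃ s ∈ M.start, ∃ α, Run st s α r) →
        (∃ f ∈ M.accept, ∃ β, Run st r' β f) → Run st r w r' → ¬ V2 κ w := by
      rintro r w r' ⟨s, hs, α, hα⟩ ⟨f, hf, β, hβ⟩ hr hVw
      refine hV (α ++ (w ++ β)) ((hVw.right β).left α) ⟨f, hf, (Run_nfa M _ _ f).mpr ⟨s, hs, ?_⟩⟩
      exact (Run_append _ _ _ _).mpr ⟨r, hα, (Run_append _ _ _ _).mpr ⟨r', hr, hβ⟩⟩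
    have hh : Dh (2 * Nat.sqrt (Fintype.card σ / κ) + 3 - 0) w := by
      refine height2 (κ := κ) (st := st) (Re := fun r => ∃ s ∈ M.start, ∃ α, Run st s α r)
        (Co := fun r => ∃ f ∈ M.accept, ∃ β, Run st r β f) hκ ?_ ?_ hNV _ ?_ hD p q 0 0 0
        (fun _ => 0) (fun _ => 0) (fun _ => p) (fun _ => p) ?_ ?_ (Or.inl rfl)
        ⟨p, hp, [], rfl⟩ ⟨q, hq, [], rfl⟩ hrun ?_ ?_
      · rintro r w r' ⟨s, hs, α, hα⟩ hr
        exact ⟨s, hs, α ++ w, (Run_append _ _ _ _).mpr ⟨r, hα, hr⟩⟩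
      · rintro r w r' ⟨f, hf, β, hβ⟩ hr
        exact ⟨f, hf, w ++ β, (Run_append _ _ _ _).mpr ⟨r', hr, hβ⟩⟩
      · intro h f E s s' g
        have h1 := g.bound hκ hNV
        have h2 : (h + 1) / 2 - 1 ≤ Nat.sqrt (Fintype.card σ / κ) := Nat.le_sqrt.2 h1
        omega
      · constructor
        all_goals intro i hi; exact absurd hi (by omega)
      · intro i hi; omega
      · exact ⟨p, [], ⟨p, hp, [], rfl⟩, rfl, fun n c t r h1 h2 _ => by omega⟩
      · intro E' _ _; exact Nat.zero_le _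
    obtain ⟨w', h1, h2, h3⟩ := Dh_short _ w p q hh hrun
    refine ⟨w', Or.inl h1.toD, ⟨q, hq, (Run_nfa M w' _ q).mpr ⟨p, hp, h2⟩⟩, ?_⟩
    unfold UB2
    rw [Nat.sub_zero] at h3
    omega

end Pool.Agent.Y668.RI
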