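import Mathlib
import Pool.Agent.Helper178.IdxLow
import Pool.Agent.Y668.RI.Up

/-!
# Rational index, arithmetic version: the automaton of the lower bound
-/

set_option autoImplicit false
set_option linter.unusedVariables false

namespace Pool.Agent.Y668.RI

open Pool.Agent.Helper178.Idx hiding St Sp Sp_o_inv Sp_s_inv Sp_c_inv Sp_u_inv run_x_back run_x_o
  run_x_c run_y_s run_z_u Bef Bef_s Bef_o Bef_u run_open noV D_long run_x_o' run_x_c' run_y_s'
  run_z_u' run_open' exists_forest Bs inc Aut run_inc lift_state step_lift run_lift aut_exists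
  aut_long

/-- The length of the blocks of level `j`. -/
def Ln (κ j : ℕ) : ℕ := 2 * (κ * (j + 1))

theorem Ln_pos {κ : ℕ} (hκ : 1 ≤ κ) (j : ℕ) : 1 ≤ Ln κ j := by
  unfold Ln
  have : 1 * 1 ≤ κ * (j + 1) := Nat.mul_le_mul hκ (by omega)
  omega

theorem Ln_succ (κ j : ℕ) : Ln κ (j + 1) = Ln κ j + 2 * κ := by
  unfold Ln
  ring

theorem Ln_mono (κ : ℕ) {i j : ℕ} (h : i ≤ j) : Ln κ i ≤ Ln κ j := by
  unfold Ln
  have h2 : i + 1 ≤ j + 1 := Nat.succ_le_succ h
  exact Nat.mul_le_mul_left 2 (Nat.mul_le_mul_left κ h2)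

/-- The unbounded state space. -/
abbrev St := Kd × ℕ × ℕ

/-- The transitions. -/
inductive Sp (κ d m : ℕ) : St → X3 → St → Prop
  | Sy (j r : ℕ) : Sp κ d m (Kd.s, j, r + 1) ly (Kd.s, j, r)
  | Sx (j : ℕ) : Sp κ d m (Kd.s, j, 0) lx (Kd.o, j, 1)
  | Ox (j k : ℕ) : k < Ln κ j → Sp κ d m (Kd.o, j, k) lx (Kd.o, j, k + 1)
  | Oy (j : ℕ) : j < d → Sp κ d m (Kd.o, j, Ln κ j) ly (Kd.s, j + 1, 0)
  | Oz : Sp κ d m (Kd.o, d, Ln κ d) lz (Kd.u, d, 1)
  | Cx (j k : ℕ) : k < Ln κ j → Sp κ d m (Kd.c, j, k) lx (Kd.c, j, k + 1)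
  | Cz (j : ℕ) : Sp κ d m (Kd.c, j, Ln κ j) lz (Kd.u, j, 1)
  | Uz (j u : ℕ) : u < m → Sp κ d m (Kd.u, j, u) lz (Kd.u, j, u + 1)
  | Uy (j u : ℕ) : u < m → 1 ≤ u → Sp κ d m (Kd.u, j, u) ly (Kd.s, j, u)
  | Ux (j : ℕ) : Sp κ d m (Kd.u, j + 1, m) lx (Kd.c, j, 1)

section

variable {κ d m : ℕ}

theorem Sp_o_inv {j k : ℕ} {t : X3} {s : St} (h : Sp κ d m (Kd.o, j, k) t s) :
    (t = lx ∧ k < Ln κ j ∧ s = (Kd.o, j, k + 1)) ∨
    (t = ly ∧ k = Ln κ j ∧ j < d ∧ s = (Kd.s, j + 1, 0)) ∨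
    (t = lz ∧ k = Ln κ j ∧ j = d ∧ s = (Kd.u, d, 1)) := by
  cases h with
  | Ox _ _ h => exact Or.inl ⟨rfl, h, rfl⟩
  | Oy _ h => exact Or.inr (Or.inl ⟨rfl, rfl, h, rfl⟩)
  | Oz => exact Or.inr (Or.inr ⟨rfl, rfl, rfl, rfl⟩)

theorem Sp_s_inv {j k : ℕ} {t : X3} {s : St} (h : Sp κ d m (Kd.s, j, k) t s) :
    (t = ly ∧ ∃ r, k = r + 1 ∧ s = (Kd.s, j, r)) ∨ (t = lx ∧ k = 0 ∧ s = (Kd.o, j, 1)) := by
  cases h with
  | Sy _ r => exact Or.inl ⟨rfl, r, rfl, rfl⟩
  | Sx _ => exact Or.inr ⟨rfl, rfl, rfl⟩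

theorem Sp_c_inv {j k : ℕ} {t : X3} {s : St} (h : Sp κ d m (Kd.c, j, k) t s) :
    (t = lx ∧ k < Ln κ j ∧ s = (Kd.c, j, k + 1)) ∨
    (t = lz ∧ k = Ln κ j ∧ s = (Kd.u, j, 1)) := by
  cases h with
  | Cx _ _ h => exact Or.inl ⟨rfl, h, rfl⟩
  | Cz _ => exact Or.inr ⟨rfl, rfl, rfl⟩

theorem Sp_u_inv {j k : ℕ} {t : X3} {s : St} (h : Sp κ d m (Kd.u, j, k) t s) :
    (t = lz ∧ k < m ∧ s = (Kd.u, j, k + 1)) ∨
    (t = ly ∧ k < m ∧ 1 ≤ k ∧ s = (Kd.s, j, k)) ∨
    (t = lx ∧ k = m ∧ ∃ j', j = j' + 1 ∧ s = (Kd.c, j', 1)) := by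
  cases h with
  | Uz _ _ h => exact Or.inl ⟨rfl, h, rfl⟩
  | Uy _ _ h h' => exact Or.inr (Or.inl ⟨rfl, h, h', rfl⟩)
  | Ux j' => exact Or.inr (Or.inr ⟨rfl, rfl, j', rfl, rfl⟩)

/-- Reading a block of `x` backwards. -/
theorem run_x_back (e : ℕ) : ∀ (p q : St), Run (Sp κ d m) p (rp e lx) q → e = 0 ∨
    (q.1 = Kd.o ∧ e ≤ q.2.2) ∨ (q.1 = Kd.c ∧ e ≤ q.2.2) := by
  induction e with
  | zero => intro p q _; exact Or.inl rfl
  | succ e ih =>
    intro p q h
    right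
    rw [rp, List.replicate_succ', Run_append] at h
    obtain ⟨r, h1, s, h2, h3⟩ := h
    have h3' : s = q := h3
    subst h3'
    have h4 := ih p r h1
    cases h2 with
    | Sx j =>
      left
      refine ⟨rfl, ?_⟩
      rcases h4 with rfl | ⟨h, _⟩ | ⟨h, _⟩
      · exact le_refl _
      · cases h
      · cases h
    | Ox j k hk =>
      left
      refine ⟨rfl, ?_⟩
      rcases h4 with rfl | ⟨_, h⟩ | ⟨h, _⟩
      · show 0 + 1 ≤ k + 1; omega
      · exact Nat.succ_le_succ h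
      · cases h
    | Cx j k hk =>
      right
      refine ⟨rfl, ?_⟩
      rcases h4 with rfl | ⟨h, _⟩ | ⟨_, h⟩
      · show 0 + 1 ≤ k + 1; omega
      · cases h
      · exact Nat.succ_le_succ h
    | Ux j =>
      right
      refine ⟨rfl, ?_⟩
      rcases h4 with rfl | ⟨h, _⟩ | ⟨h, _⟩
      · exact le_refl _
      · cases h
      · cases h

theorem run_x_o (n : ℕ) : ∀ (j k : ℕ) (q : St), Run (Sp κ d m) (Kd.o, j, k) (rp n lx) q →
    q = (Kd.o, j, k + n) := by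
  induction n with
  | zero => intro j k q h; exact h.symm
  | succ n ih =>
    intro j k q h
    obtain ⟨r, h1, h2⟩ := h
    rcases Sp_o_inv h1 with ⟨_, _, rfl⟩ | ⟨h, _⟩ | ⟨h, _⟩
    · rw [ih j (k + 1) q h2]
      congr 2
      omega
    · exact absurd h (by decide)
    · exact absurd h (by decide)

theorem run_x_c (n : ℕ) : ∀ (j k : ℕ) (q : St), Run (Sp κ d m) (Kd.c, j, k) (rp n lx) q →
    q = (Kd.c, j, k + n) := by
  induction n with
  | zero => intro j k q h; exact h.symm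
  | succ n ih =>
    intro j k q h
    obtain ⟨r, h1, h2⟩ := h
    rcases Sp_c_inv h1 with ⟨_, _, rfl⟩ | ⟨h, _⟩
    · rw [ih j (k + 1) q h2]
      congr 2
      omega
    · exact absurd h (by decide)

theorem run_y_s (n : ℕ) : ∀ (j k : ℕ) (q : St), Run (Sp κ d m) (Kd.s, j, k) (rp n ly) q →
    n ≤ k ∧ q = (Kd.s, j, k - n) := by
  induction n with
  | zero => intro j k q h; exact ⟨Nat.zero_le _, h.symm⟩
  | succ n ih =>
    intro j k q h
    obtain ⟨r, h1, h2⟩ := h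
    rcases Sp_s_inv h1 with ⟨_, r, rfl, rfl⟩ | ⟨h, _⟩
    · obtain ⟨h3, rfl⟩ := ih j r q h2
      exact ⟨by omega, by congr 2; omega⟩
    · exact absurd h (by decide)

theorem run_z_u (n : ℕ) : ∀ (j k : ℕ) (q : St), Run (Sp κ d m) (Kd.u, j, k) (rp n lz) q →
    q = (Kd.u, j, k + n) := by
  induction n with
  | zero => intro j k q h; exact h.symm
  | succ n ih =>
    intro j k q h
    obtain ⟨r, h1, h2⟩ := h
    rcases Sp_u_inv h1 with ⟨_, _, rfl⟩ | ⟨h, _⟩ | ⟨h, _⟩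
    · rw [ih j (k + 1) q h2]
      congr 2
      omega
    · exact absurd h (by decide)
    · exact absurd h (by decide)

/-- States from which the letter `y` leads to `(s, j, i)` only. -/
def Bef (κ d m j i : ℕ) (p : St) : Prop := ∀ s, Sp κ d m p ly s → s = (Kd.s, j, i)

theorem Bef_s (j i : ℕ) : Bef κ d m j i (Kd.s, j, i + 1) := by
  intro s h
  rcases Sp_s_inv h with ⟨_, r, h1, rfl⟩ | ⟨h, _⟩
  · have : r = i := by omega
    rw [this]
  · exact absurd h (by decide)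

theorem Bef_o (j : ℕ) : Bef κ d m (j + 1) 0 (Kd.o, j, Ln κ j) := by
  intro s h
  rcases Sp_o_inv h with ⟨h, _⟩ | ⟨_, _, _, rfl⟩ | ⟨h, _⟩
  · exact absurd h (by decide)
  · rfl
  · exact absurd h (by decide)

theorem Bef_u (j i : ℕ) : Bef κ d m j i (Kd.u, j, i) := by
  intro s h
  rcases Sp_u_inv h with ⟨h, _⟩ | ⟨_, _, _, rfl⟩ | ⟨h, _⟩
  · exact absurd h (by decide)
  · rfl
  · exact absurd h (by decide)

/-- The beginning of a token. -/
theorem run_open {j i n e : ℕ} {p q : St} {w : List X3} (hp : Bef κ d m j i p)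
    (h : Run (Sp κ d m) p (rp (n + 1) ly ++ (rp (e + 1) lx ++ w)) q) :
    n = i ∧ Run (Sp κ d m) (Kd.o, j, e + 1) w q := by
  obtain ⟨s1, ⟨r, h1, h2⟩, h3⟩ := (Run_append _ _ _ _).mp h
  rw [hp r h1] at h2
  obtain ⟨h4, rfl⟩ := run_y_s n j i s1 h2
  obtain ⟨s2, ⟨r', h5, h6⟩, h7⟩ := (Run_append _ _ _ _).mp h3
  rcases Sp_s_inv h5 with ⟨h, _⟩ | ⟨_, h8, rfl⟩
  · exact absurd h (by decide)
  · have := run_x_o e j 1 s2 h6
    subst this
    refine ⟨by omega, ?_⟩
    rw [add_comm e 1]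
    exact h7

theorem noV (p q : St) (w : List X3) (h : Run (Sp κ d m) p w q) : ¬ V2 κ w := by
  rintro ⟨α, e, v, E, hE, ⟨a, t, r, ht, rfl⟩, h2⟩
  obtain ⟨E', rfl⟩ : ∃ E', E = E' + 1 := ⟨E - 1, by omega⟩
  have fin : ∀ j k : ℕ, Run (Sp κ d m) (Kd.o, j, k) (t :: r) q → k = Ln κ j := by
    rintro j k ⟨s, h, _⟩
    rcases Sp_o_inv h with ⟨h, _⟩ | ⟨_, h, _⟩ | ⟨_, h, _⟩
    · exact absurd h ht
    · exact h
    · exact h
  rcases h2 with ⟨rfl, he1, h2⟩ | ⟨b, rfl, h2⟩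
  · obtain ⟨s0, _, h⟩ := (Run_append _ _ _ _).mp h
    obtain ⟨s1, h3, h⟩ := (Run_append _ _ _ _).mp h
    obtain ⟨ty, j, k⟩ := s1
    rcases run_x_back e s0 _ h3 with rfl | ⟨h4, h5⟩ | ⟨h4, h5⟩
    · omega
    · have h4' : ty = Kd.o := h4
      subst h4'
      have h5' : e ≤ k := h5
      have h6 := h
      obtain ⟨_, ⟨s2, h6, _⟩, _⟩ := (Run_append _ _ _ _).mp h6
      rcases Sp_o_inv h6 with ⟨h, _⟩ | ⟨_, rfl, _, _⟩ | ⟨h, _⟩
      · exact absurd h (by decide)
      · obtain ⟨_, h7⟩ := run_open (Bef_o j) h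
        have := fin _ _ h7
        rw [Ln_succ] at this
        omega
      · exact absurd h (by decide)
    · have h4' : ty = Kd.c := h4
      subst h4'
      obtain ⟨_, ⟨s2, h6, _⟩, _⟩ := (Run_append _ _ _ _).mp h
      rcases Sp_c_inv h6 with ⟨h, _⟩ | ⟨h, _⟩
      · exact absurd h (by decide)
      · exact absurd h (by decide)
  · obtain ⟨s0, _, h⟩ := (Run_append _ _ _ _).mp h
    obtain ⟨s1, h3, h⟩ := (Run_append _ _ _ _).mp h
    obtain ⟨s2, ⟨s3, h6, h7⟩, h⟩ := (Run_append _ _ _ _).mp h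
    have key : ∃ j, e ≤ Ln κ j ∧ s3 = (Kd.u, j, 1) := by
      obtain ⟨ty, j, k⟩ := s1
      rcases run_x_back e s0 _ h3 with rfl | ⟨h4, h5⟩ | ⟨h4, h5⟩
      · omega
      · have h4' : ty = Kd.o := h4
        subst h4'
        have h5' : e ≤ k := h5
        rcases Sp_o_inv h6 with ⟨h, _⟩ | ⟨h, _⟩ | ⟨_, rfl, rfl, rfl⟩
        · exact absurd h (by decide)
        · exact absurd h (by decide)
        · exact ⟨_, h5', rfl⟩
      · have h4' : ty = Kd.c := h4
        subst h4'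
        have h5' : e ≤ k := h5
        rcases Sp_c_inv h6 with ⟨h, _⟩ | ⟨_, rfl, rfl⟩
        · exact absurd h (by decide)
        · exact ⟨_, h5', rfl⟩
    obtain ⟨j, he, rfl⟩ := key
    have := run_z_u b j 1 s2 h7
    subst this
    obtain ⟨_, h8⟩ := run_open (Bef_u j (1 + b)) h
    have := fin _ _ h8
    omega

theorem D_long {w : List X3} (hw : D w) : ∀ (j i : ℕ) (p q : St), j ≤ d → Bef κ d m j i p →
    w ≠ [] → Run (Sp κ d m) p w q →
    ∃ k, q = (Kd.u, j, i + 1 + k) ∧ (k + 1) * m ^ (d - j) ≤ w.length := by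
  induction hw with
  | nil => intro j i p q _ _ h _; exact absurd rfl h
  | node n e u v hu hv ihu ihv =>
    intro j i p q hjd hp _ hr
    obtain ⟨rfl, hr⟩ := run_open hp hr
    obtain ⟨s3, g3, hr⟩ := (Run_append _ _ _ _).mp hr
    obtain ⟨s4, g4, hr⟩ := (Run_append _ _ _ _).mp hr
    obtain ⟨s5, g5, g6⟩ := (Run_append _ _ _ _).mp hr
    have tree : s5 = (Kd.u, j, n + 1) ∧
        m ^ (d - j) ≤ (rp (n + 1) ly ++ (rp (e + 1) lx ++ (u ++ (rp (e + 1) lx ++
          rp (n + 1) lz)))).length := by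
      by_cases hu0 : u = []
      · subst hu0
        have g3' : (Kd.o, j, e + 1) = s3 := g3
        subst g3'
        have := run_x_o _ _ _ _ g4
        subst this
        obtain ⟨s6, g7, g8⟩ := g5
        rcases Sp_o_inv g7 with ⟨h, _⟩ | ⟨h, _⟩ | ⟨_, h, rfl, rfl⟩
        · exact absurd h (by decide)
        · exact absurd h (by decide)
        · have := run_z_u _ _ _ _ g8
          refine ⟨?_, ?_⟩
          · rw [this, add_comm]
          · rw [Nat.sub_self, pow_zero]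
            simp only [rp, List.length_append, List.length_replicate]
            omega
      · -- nonempty inner forest
        have hfirst : e + 1 = Ln κ j ∧ j < d := by
          rcases D_first hu with h | ⟨E, hE, a, t, r, ht, rfl⟩
          · exact absurd h hu0
          · obtain ⟨_, ⟨s6, g7, _⟩, _⟩ := (Run_append _ _ _ _).mp g3
            rcases Sp_o_inv g7 with ⟨h, _⟩ | ⟨_, h, h', _⟩ | ⟨h, _⟩
            · exact absurd h (by decide)
            · exact ⟨h, h'⟩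
            · exact absurd h (by decide)
        obtain ⟨he, hj⟩ := hfirst
        rw [he] at g3
        obtain ⟨k, rfl, hlen⟩ := ihu (j + 1) 0 _ _ (by omega) (Bef_o j) hu0 g3
        obtain ⟨s6, g7, g8⟩ := g4
        rcases Sp_u_inv g7 with ⟨h, _⟩ | ⟨h, _⟩ | ⟨_, hm, j', hj', rfl⟩
        · exact absurd h (by decide)
        · exact absurd h (by decide)
        · have hjj : j = j' := by omega
          subst hjj
          have := run_x_c _ _ _ _ g8
          subst this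
          obtain ⟨s7, g9, g10⟩ := g5
          rcases Sp_c_inv g9 with ⟨h, _⟩ | ⟨_, h, rfl⟩
          · exact absurd h (by decide)
          · have := run_z_u _ _ _ _ g10
            refine ⟨?_, ?_⟩
            · rw [this, add_comm]
            · have h1 : d - j = (d - (j + 1)) + 1 := by omega
              have h2 : k + 1 = m := by omega
              rw [h2] at hlen
              rw [h1, pow_succ, mul_comm]
              simp only [List.length_append]
              omega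
    obtain ⟨rfl, hlen⟩ := tree
    have hL : (rp (n + 1) ly ++ (rp (e + 1) lx ++ (u ++ (rp (e + 1) lx ++
        (rp (n + 1) lz ++ v))))).length = (rp (n + 1) ly ++ (rp (e + 1) lx ++ (u ++
          (rp (e + 1) lx ++ rp (n + 1) lz)))).length + v.length := by
      simp only [List.length_append]
      ring
    rw [hL]
    by_cases hv0 : v = []
    · subst hv0
      have g6' : (Kd.u, j, n + 1) = q := g6
      subst g6'
      refine ⟨0, rfl, ?_⟩
      rw [zero_add, one_mul]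
      omega
    · obtain ⟨k, rfl, hlen'⟩ := ihv j (n + 1) _ _ hjd (Bef_u j (n + 1)) hv0 g6
      refine ⟨k + 1, ?_, ?_⟩
      · congr 2; omega
      · calc (k + 1 + 1) * m ^ (d - j) = m ^ (d - j) + (k + 1) * m ^ (d - j) := by ring
          _ ≤ _ := Nat.add_le_add hlen hlen'

/-! ### existence of an accepted forest -/

theorem run_x_o' (n : ℕ) : ∀ (j k : ℕ), k + n ≤ Ln κ j →
    Run (Sp κ d m) (Kd.o, j, k) (rp n lx) (Kd.o, j, k + n) := by
  induction n with
  | zero => intro j k _; rfl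
  | succ n ih =>
    intro j k h
    have := ih j (k + 1) (by omega)
    rw [show k + 1 + n = k + (n + 1) by omega] at this
    exact ⟨_, .Ox j k (by omega), this⟩

theorem run_x_c' (n : ℕ) : ∀ (j k : ℕ), k + n ≤ Ln κ j →
    Run (Sp κ d m) (Kd.c, j, k) (rp n lx) (Kd.c, j, k + n) := by
  induction n with
  | zero => intro j k _; rfl
  | succ n ih =>
    intro j k h
    have := ih j (k + 1) (by omega)
    rw [show k + 1 + n = k + (n + 1) by omega] at this
    exact ⟨_, .Cx j k (by omega), this⟩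

theorem run_y_s' (n : ℕ) : ∀ (j : ℕ), Run (Sp κ d m) (Kd.s, j, n) (rp n ly) (Kd.s, j, 0) := by
  induction n with
  | zero => intro j; rfl
  | succ n ih => intro j; exact ⟨_, .Sy j n, ih j⟩

theorem run_z_u' (n : ℕ) : ∀ (j k : ℕ), k + n ≤ m →
    Run (Sp κ d m) (Kd.u, j, k) (rp n lz) (Kd.u, j, k + n) := by
  induction n with
  | zero => intro j k _; rfl
  | succ n ih =>
    intro j k h
    have := ih j (k + 1) (by omega)
    rw [show k + 1 + n = k + (n + 1) by omega] at this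
    exact ⟨_, .Uz j k (by omega), this⟩

theorem run_open' {j i e : ℕ} {p : St} (hp : Sp κ d m p ly (Kd.s, j, i)) (he : e + 1 ≤ Ln κ j) :
    Run (Sp κ d m) p (rp (i + 1) ly ++ rp (e + 1) lx) (Kd.o, j, e + 1) := by
  refine (Run_append _ _ _ _).mpr ⟨(Kd.s, j, 0), ⟨_, hp, run_y_s' i j⟩, _, .Sx j, ?_⟩
  rw [add_comm e 1]
  exact run_x_o' e j 1 (by omega)

theorem exists_forest (hκ : 1 ≤ κ) (hm : 1 ≤ m) (c : ℕ) : ∀ (j : ℕ), j + c = d → ∀ p : St,
    Sp κ d m p ly (Kd.s, j, 0) → ∃ w, D w ∧ Run (Sp κ d m) p w (Kd.u, j, m) := by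
  induction c with
  | zero =>
    intro j hj
    have hjd : j = d := by omega
    subst hjd
    have key : ∀ (b i : ℕ), i + 1 + b = m → ∀ p : St, Sp κ j m p ly (Kd.s, j, i) →
        ∃ w, D w ∧ Run (Sp κ j m) p w (Kd.u, j, m) := by
      obtain ⟨e, he⟩ : ∃ e, e + 1 + (e + 1) = Ln κ j := by
        have h1 := Ln_pos hκ j
        unfold Ln at h1 ⊢
        exact ⟨κ * (j + 1) - 1, by omega⟩
      have tree : ∀ i : ℕ, i + 1 ≤ m → ∀ p : St, Sp κ j m p ly (Kd.s, j, i) →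
          ∀ v q, Run (Sp κ j m) (Kd.u, j, i + 1) v q →
          Run (Sp κ j m) p (rp (i + 1) ly ++ (rp (e + 1) lx ++ ([] ++ (rp (e + 1) lx ++
            (rp (i + 1) lz ++ v))))) q := by
        intro i hi p hp v q hv
        rw [← List.append_assoc]
        refine (Run_append _ _ _ _).mpr ⟨_, run_open' (e := e) hp (by omega), ?_⟩
        rw [List.nil_append]
        refine (Run_append _ _ _ _).mpr ⟨_, run_x_o' (e + 1) j (e + 1) (by omega), ?_⟩
        rw [he]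
        refine (Run_append _ _ _ _).mpr ⟨(Kd.u, j, i + 1), ⟨_, .Oz, ?_⟩, hv⟩
        rw [add_comm i 1]
        exact run_z_u' i j 1 (by omega)
      intro b
      induction b with
      | zero =>
        intro i hi p hp
        refine ⟨_, .node i e [] [] .nil .nil, tree i (by omega) p hp [] _ ?_⟩
        rw [show i + 1 = m by omega]
        rfl
      | succ b ihb =>
        intro i hi p hp
        obtain ⟨v, hv, hrv⟩ := ihb (i + 1) (by omega) (Kd.u, j, i + 1)
          (.Uy j (i + 1) (by omega) (by omega))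
        exact ⟨_, .node i e [] v .nil hv, tree i (by omega) p hp v _ hrv⟩
    intro p hp
    exact key (m - 1) 0 (by omega) p hp
  | succ c ih =>
    intro j hj
    obtain ⟨u, hu, hru⟩ := ih (j + 1) (by omega) (Kd.o, j, Ln κ j) (.Oy j (by omega))
    obtain ⟨e, he⟩ : ∃ e, e + 1 = Ln κ j := by
      have : 1 ≤ Ln κ j := Ln_pos hκ j
      exact ⟨Ln κ j - 1, by omega⟩
    have tree : ∀ i : ℕ, i + 1 ≤ m → ∀ p : St, Sp κ d m p ly (Kd.s, j, i) →
        ∀ v q, Run (Sp κ d m) (Kd.u, j, i + 1) v q →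
        Run (Sp κ d m) p (rp (i + 1) ly ++ (rp (e + 1) lx ++ (u ++ (rp (e + 1) lx ++
          (rp (i + 1) lz ++ v))))) q := by
      intro i hi p hp v q hv
      rw [← List.append_assoc]
      refine (Run_append _ _ _ _).mpr ⟨_, run_open' (e := e) hp (by omega), ?_⟩
      rw [he]
      refine (Run_append _ _ _ _).mpr ⟨_, hru, ?_⟩
      refine (Run_append _ _ _ _).mpr ⟨(Kd.c, j, Ln κ j), ?_, ?_⟩
      · rw [← he]
        refine ⟨_, .Ux j, ?_⟩
        have := run_x_c' (κ := κ) (d := d) (m := m) e j 1 (by omega)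
        rw [add_comm e 1]
        exact this
      · refine (Run_append _ _ _ _).mpr ⟨(Kd.u, j, i + 1), ⟨_, .Cz j, ?_⟩, hv⟩
        rw [add_comm i 1]
        exact run_z_u' i j 1 (by omega)
    have key : ∀ (b i : ℕ), i + 1 + b = m → ∀ p : St, Sp κ d m p ly (Kd.s, j, i) →
        ∃ w, D w ∧ Run (Sp κ d m) p w (Kd.u, j, m) := by
      intro b
      induction b with
      | zero =>
        intro i hi p hp
        refine ⟨_, .node i e u [] hu .nil, tree i (by omega) p hp [] _ ?_⟩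
        rw [show i + 1 = m by omega]
        rfl
      | succ b ihb =>
        intro i hi p hp
        obtain ⟨v, hv, hrv⟩ := ihb (i + 1) (by omega) (Kd.u, j, i + 1)
          (.Uy j (i + 1) (by omega) (by omega))
        exact ⟨_, .node i e u v hu hv, tree i (by omega) p hp v _ hrv⟩
    intro p hp
    exact key (m - 1) 0 (by omega) p hp

end

/-! ### the automaton -/

/-- The bounded state space. -/
abbrev Bs (κ d : ℕ) := Kd × Fin (d + 1) × Fin (Ln κ d + 1)

/-- Inclusion of the bounded state space. -/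
def inc {κ d : ℕ} (s : Bs κ d) : St := (s.1, s.2.1, s.2.2)

/-- The automaton. -/
def Aut (κ d : ℕ) : NFA X3 (Bs κ d) where
  step s a := {t | Sp κ d (Ln κ d) (inc s) a (inc t)}
  start := {s | inc s = (Kd.s, 0, 1)}
  accept := {s | inc s = (Kd.u, 0, Ln κ d)}

theorem run_inc {κ d : ℕ} (w : List X3) : ∀ (p q : Bs κ d),
    Run (fun p a q => q ∈ (Aut κ d).step p a) p w q → Run (Sp κ d (Ln κ d)) (inc p) w (inc q) := by
  induction w with
  | nil =>
    intro p q h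
    have h' : p = q := h
    rw [h']
    rfl
  | cons a w ih =>
    rintro p q ⟨r, h1, h2⟩
    exact ⟨inc r, h1, ih r q h2⟩

theorem lift_state {κ d : ℕ} {ty : Kd} {j k : ℕ} (hj : j ≤ d) (hk : k ≤ Ln κ d) :
    ∃ t : Bs κ d, inc t = (ty, j, k) :=
  ⟨(ty, ⟨j, by omega⟩, ⟨k, by omega⟩), rfl⟩

theorem step_lift {κ d : ℕ} (hκ : 1 ≤ κ) {p : Bs κ d} {a : X3} {r : St} (h : Sp κ d (Ln κ d) (inc p) a r) :
    ∃ t : Bs κ d, inc t = r := by
  obtain ⟨ty, j, k⟩ := p
  have hj : (j : ℕ) ≤ d := by omega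
  have hk : (k : ℕ) ≤ Ln κ d := by omega
  have h1 : 1 ≤ Ln κ d := Ln_pos hκ d
  have hpj : Ln κ (j : ℕ) ≤ Ln κ d := Ln_mono κ hj
  simp only [inc] at h
  cases ty with
  | s =>
    rcases Sp_s_inv h with ⟨_, r, h2, rfl⟩ | ⟨_, _, rfl⟩
    · exact lift_state hj (by omega)
    · exact lift_state hj h1
  | o =>
    rcases Sp_o_inv h with ⟨_, h2, rfl⟩ | ⟨_, _, h2, rfl⟩ | ⟨_, _, _, rfl⟩
    · exact lift_state hj (by omega)
    · exact lift_state (by omega) (by omega)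
    · exact lift_state (le_refl _) h1
  | c =>
    rcases Sp_c_inv h with ⟨_, h2, rfl⟩ | ⟨_, _, rfl⟩
    · exact lift_state hj (by omega)
    · exact lift_state hj h1
  | u =>
    rcases Sp_u_inv h with ⟨_, h2, rfl⟩ | ⟨_, _, h2, rfl⟩ | ⟨_, _, j', h2, rfl⟩
    · exact lift_state hj (by omega)
    · exact lift_state hj hk
    · exact lift_state (by omega) h1

theorem run_lift {κ d : ℕ} (hκ : 1 ≤ κ) (w : List X3) : ∀ (p : Bs κ d) (q : St),
    Run (Sp κ d (Ln κ d)) (inc p) w q →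
    ∃ q' : Bs κ d, inc q' = q ∧ Run (fun p a q => q ∈ (Aut κ d).step p a) p w q' := by
  induction w with
  | nil => intro p q h; exact ⟨p, h, rfl⟩
  | cons a w ih =>
    rintro p q ⟨r, h1, h2⟩
    obtain ⟨t, rfl⟩ := step_lift hκ h1
    obtain ⟨q', h3, h4⟩ := ih t q h2
    exact ⟨q', h3, t, h1, h4⟩

theorem aut_exists {κ d : ℕ} (hκ : 1 ≤ κ) : ∃ w ∈ Lang2 κ, w ∈ (Aut κ d).accepts := by
  obtain ⟨w, hw, hr⟩ := exists_forest (κ := κ) (d := d) (m := Ln κ d) hκ (Ln_pos hκ d) d 0 (by omega)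
    (Kd.s, 0, 1) (.Sy 0 0)
  obtain ⟨p, hp⟩ := lift_state (κ := κ) (d := d) (ty := Kd.s) (j := 0) (k := 1) (by omega)
    (Ln_pos hκ d)
  rw [← hp] at hr
  obtain ⟨q, hq, hr'⟩ := run_lift hκ w p _ hr
  exact ⟨w, Or.inl hw, q, hq, (Run_nfa _ w _ q).mpr ⟨p, hp, hr'⟩⟩

theorem aut_long {κ d : ℕ} {w : List X3} (hw : w ∈ Lang2 κ) (hM : w ∈ (Aut κ d).accepts) :
    Ln κ d ^ (d + 1) ≤ w.length := by
  obtain ⟨q, hq, hM⟩ := hM
  obtain ⟨p, hp, hr⟩ := (Run_nfa _ w _ q).mp hM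
  have hr' := run_inc w p q hr
  have hp' : inc p = (Kd.s, 0, 1) := hp
  have hq' : inc q = (Kd.u, 0, Ln κ d) := hq
  rw [hp', hq'] at hr'
  rcases hw with hw | hw
  · have hne : w ≠ [] := by
      rintro rfl
      have h : ((Kd.s, 0, 1) : St) = (Kd.u, 0, Ln κ d) := hr'
      simp at h
    obtain ⟨k, hk, hlen⟩ := D_long hw 0 0 _ _ (Nat.zero_le _) (Bef_s 0 0) hne hr'
    have h1 : k + 1 = Ln κ d := by
      simp only [Prod.mk.injEq, true_and] at hk
      omega
    rw [h1, Nat.sub_zero] at hlen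
    rw [pow_succ, mul_comm]
    exact hlen
  · exact absurd hw (noV _ _ _ hr')

end Pool.Agent.Y668.RI
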