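import Mathlib
import Pool.Agent.Results.MP_275d83_lc.Intermediate
import Pool.Agent.Y668.RI.CF
import Pool.Agent.Y668.RI.Low

/-!
# Rational index: the asymptotics
-/

set_option autoImplicit false

namespace Pool.Agent.Y668.RI

open Pool.Agent.Helper178.Idx Filter
open Pool.Agent.Results.MP_275d83_lc.Intermediate hiding result

/-- Embedding of an automaton into a larger state space. -/
def emb {X σ τ : Type} (ι : σ → τ) (M : NFA X σ) : NFA X τ where
  step t a := {t' | ∃ s, ι s = t ∧ ∃ s' ∈ M.step s a, ι s' = t'}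
  start := ι '' M.start
  accept := ι '' M.accept

theorem run_emb {X σ τ : Type} {ι : σ → τ} (hι : Function.Injective ι) (M : NFA X σ)
    (w : List X) : ∀ (s : σ) (t : τ),
    Run (fun (p : τ) (a : X) (q : τ) => q ∈ (emb ι M).step p a) (ι s) w t ↔
      ∃ s', ι s' = t ∧ Run (fun (p : σ) (a : X) (q : σ) => q ∈ M.step p a) s w s' := by
  induction w with
  | nil =>
    intro s t
    constructor
    · intro h; exact ⟨s, h, rfl⟩
    · rintro ⟨s', rfl, h⟩
      have h' : s = s' := h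
      rw [h']; rfl
  | cons a w ih =>
    intro s t
    constructor
    · rintro ⟨r, ⟨s1, h1, s2, h2, rfl⟩, h3⟩
      have h4 := hι h1
      subst h4
      obtain ⟨s', h5, h6⟩ := (ih s2 t).1 h3
      exact ⟨s', h5, s2, h2, h6⟩
    · rintro ⟨s', rfl, r, h1, h2⟩
      exact ⟨ι r, ⟨s, rfl, r, h1, rfl⟩, (ih r _).2 ⟨s', rfl, h2⟩⟩

theorem accepts_emb {X σ τ : Type} {ι : σ → τ} (hι : Function.Injective ι) (M : NFA X σ) :
    (emb ι M).accepts = M.accepts := by
  ext w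
  constructor
  · rintro ⟨q, ⟨q', hq', rfl⟩, h⟩
    obtain ⟨p, ⟨p', hp', rfl⟩, h⟩ := (Run_nfa _ w _ _).mp h
    obtain ⟨s', h1, h2⟩ := (run_emb hι M w p' _).1 h
    have h3 := hι h1
    subst h3
    exact ⟨s', hq', (Run_nfa M w _ _).mpr ⟨p', hp', h2⟩⟩
  · rintro ⟨q, hq, h⟩
    obtain ⟨p, hp, h⟩ := (Run_nfa M w _ q).mp h
    exact ⟨ι q, ⟨q, hq, rfl⟩, (Run_nfa _ w _ _).mpr ⟨ι p, ⟨p, hp, rfl⟩,
      (run_emb hι M w p _).2 ⟨q, rfl, h⟩⟩⟩

theorem ratIndex_mono {X : Type} [Finite X] (L : Language X) {n n' : ℕ} (h : n ≤ n') :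
    ratIndex L n ≤ ratIndex L n' := by
  refine ratIndex_le fun M => ?_
  have h1 := shortest_le_ratIndex L (emb (Fin.castLE h) M)
  unfold shortest at h1 ⊢
  rw [accepts_emb (Fin.castLE_injective h)] at h1
  exact h1

theorem card_Bs2 (κ d : ℕ) : Fintype.card (Bs κ d) = 4 * ((d + 1) * (Ln κ d + 1)) := by
  rw [Fintype.card_prod, Fintype.card_prod, Fintype.card_fin, Fintype.card_fin]
  rfl

/-- The lower bound. -/
theorem index_lower2 {κ : ℕ} (hκ : 1 ≤ κ) (d : ℕ) :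
    Ln κ d ^ (d + 1) ≤ ratIndex (Lang2 κ) (4 * ((d + 1) * (Ln κ d + 1))) := by
  have e : Bs κ d ≃ Fin (4 * ((d + 1) * (Ln κ d + 1))) :=
    (Fintype.equivFin (Bs κ d)).trans (finCongr (card_Bs2 κ d))
  refine le_trans ?_ (shortest_le_ratIndex (Lang2 κ) (reind e (Aut κ d)))
  unfold shortest
  rw [accepts_reind]
  obtain ⟨w, hw, hM⟩ := aut_exists (κ := κ) (d := d) hκ
  refine le_csInf ⟨_, w, hw, hM, rfl⟩ ?_
  rintro k ⟨w', hw', hM', rfl⟩
  exact aut_long hw' hM'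

/-- The upper bound. -/
theorem index_upper2 {κ : ℕ} (hκ : 1 ≤ κ) (n : ℕ) : ratIndex (Lang2 κ) n ≤ UB2 κ n := by
  refine ratIndex_le fun M => shortest_le ?_
  intro w hw hM
  have := upper2 hκ M hw hM
  rwa [Fintype.card_fin] at this

theorem rpow_two_logb {x : ℝ} (hx : 0 < x) (y : ℝ) : (2 : ℝ) ^ (y * Real.logb 2 x) = x ^ y := by
  rw [mul_comm, Real.rpow_mul (by norm_num), Real.rpow_logb (by norm_num) (by norm_num) hx]

/-- faster than every polynomial -/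
theorem superpoly_of {f : ℕ → ℕ} (h : ∀ K : ℕ, ∀ᶠ n : ℕ in atTop, (n : ℝ) ^ K ≤ f n) :
    Superpolynomial f := by
  intro k hO
  rw [Asymptotics.isBigO_iff] at hO
  obtain ⟨C, hC⟩ := hO
  have h1 := h (k + 1)
  have h2 : ∀ᶠ n : ℕ in atTop, C < (n : ℝ) :=
    (tendsto_natCast_atTop_atTop (R := ℝ)).eventually_gt_atTop C
  obtain ⟨n, hn1, hn2, hn3, hn4⟩ := (hC.and (h1.and (h2.and (eventually_ge_atTop 1)))).exists
  have hn0 : (0 : ℝ) < n := by exact_mod_cast hn4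
  rw [Real.norm_of_nonneg (by positivity), Real.norm_of_nonneg (by positivity)] at hn1
  have h3 : (n : ℝ) ^ (k + 1) ≤ C * (n : ℝ) ^ k := hn2.trans hn1
  rw [pow_succ, mul_comm] at h3
  have h4 : (n : ℝ) ≤ C := le_of_mul_le_mul_right h3 (by positivity)
  linarith

/-- slower than every exponential -/
theorem subexp_of {f : ℕ → ℕ}
    (h : ∀ ε : ℝ, 0 < ε → ∀ᶠ n : ℕ in atTop, (f n : ℝ) ≤ (2 : ℝ) ^ (ε * n)) :
    Subexponential f := by
  intro c hc
  have hl : 0 < Real.logb 2 c := Real.logb_pos (by norm_num) hc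
  filter_upwards [h (Real.logb 2 c / 2) (by positivity), eventually_ge_atTop 1] with n hn hn1
  have hn0 : (0 : ℝ) < n := by exact_mod_cast hn1
  refine lt_of_le_of_lt hn ?_
  have hc0 : (0 : ℝ) < c := by linarith
  have e1 : c ^ n = (2 : ℝ) ^ ((n : ℝ) * Real.logb 2 c) := by
    rw [rpow_two_logb hc0, Real.rpow_natCast]
  rw [e1]
  refine Real.rpow_lt_rpow_of_exponent_lt (by norm_num) ?_
  have : 0 < Real.logb 2 c * n := by positivity
  linarith

theorem tendsto_logb : Tendsto (fun n : ℕ => Real.logb 2 (n : ℝ)) atTop atTop := by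
  have h := Real.tendsto_log_atTop.comp (tendsto_natCast_atTop_atTop (R := ℝ))
  exact h.atTop_div_const (Real.log_pos (by norm_num))

theorem log_small (ε : ℝ) (hε : 0 < ε) : ∀ᶠ n : ℕ in atTop, Real.logb 2 (n : ℝ) ≤ ε * √(n : ℝ) := by
  have h1 := (isLittleO_log_rpow_atTop (r := 1 / 2) (by norm_num)).bound
    (show (0 : ℝ) < ε * Real.log 2 by have := Real.log_pos (show (1 : ℝ) < 2 by norm_num); positivity)
  filter_upwards [(tendsto_natCast_atTop_atTop (R := ℝ)).eventually h1, eventually_ge_atTop 1]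
    with n hn hn1
  have hl2 := Real.log_pos (show (1 : ℝ) < 2 by norm_num)
  have hn0 : (1 : ℝ) ≤ n := by exact_mod_cast hn1
  rw [Real.norm_of_nonneg (Real.log_nonneg hn0), Real.norm_of_nonneg (by positivity),
    ← Real.sqrt_eq_rpow] at hn
  rw [Real.logb, div_le_iff₀ hl2]
  calc Real.log n ≤ ε * Real.log 2 * √(n : ℝ) := hn
    _ = ε * √(n : ℝ) * Real.log 2 := by ring

/-! ### the arithmetic version -/

theorem lower2 {κ : ℕ} (hκ : 1 ≤ κ) : ∀ᶠ n : ℕ in atTop,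
    (2 : ℝ) ^ (1 / 16 * √((n : ℝ) / κ) * Real.logb 2 n) ≤ ratIndex (Lang2 κ) n := by
  filter_upwards [eventually_ge_atTop (784 * κ)] with n hn
  have hκ0 : (0 : ℝ) < κ := by exact_mod_cast hκ
  have hκ1 : (1 : ℝ) ≤ κ := by exact_mod_cast hκ
  have hn16 : 784 ≤ n := le_trans (Nat.le_mul_of_pos_right _ hκ) hn
  have hnR : (784 : ℝ) ≤ n := by exact_mod_cast hn16
  set s := √((n : ℝ) / κ) with hs
  have hs2 : s * s = (n : ℝ) / κ := Real.mul_self_sqrt (by positivity)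
  have hs0 : 0 ≤ s := Real.sqrt_nonneg _
  have hs28 : 28 ≤ s := by
    rw [hs]
    apply Real.le_sqrt_of_sq_le
    rw [le_div_iff₀ hκ0]
    have : ((784 * κ : ℕ) : ℝ) ≤ n := by exact_mod_cast hn
    push_cast at this
    linarith
  obtain ⟨D, hD⟩ : ∃ D, D = Nat.sqrt (n / (12 * κ)) := ⟨_, rfl⟩
  have hD1 : D * D ≤ n / (12 * κ) := hD ▸ Nat.sqrt_le _
  have hD2 : n / (12 * κ) < (D + 1) * (D + 1) := hD ▸ Nat.lt_succ_sqrt _
  have h12 : 0 < 12 * κ := by omega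
  have hD3 : n < (D + 1) * (D + 1) * (12 * κ) := (Nat.div_lt_iff_lt_mul h12).1 hD2
  have hD4 : D * D * (12 * κ) ≤ n := (Nat.le_div_iff_mul_le h12).1 hD1
  have hD5 : s * s < (D + 1) * (D + 1) * 12 := by
    rw [hs2, div_lt_iff₀ hκ0]
    have : (n : ℝ) < ((D + 1) * (D + 1) * (12 * κ) : ℕ) := by exact_mod_cast hD3
    push_cast at this
    linarith
  have hD6 : s / 4 ≤ D := by
    by_contra hcon
    push Not at hcon
    have h1 : (D : ℝ) + 1 < s / 4 + 1 := by linarith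
    have h2 : s / 4 + 1 ≤ s * (2 / 7) := by linarith
    have h3 : (D : ℝ) + 1 < s * (2 / 7) := by linarith
    have h4 : ((D : ℝ) + 1) * (D + 1) ≤ s * (2 / 7) * (s * (2 / 7)) :=
      mul_le_mul h3.le h3.le (by positivity) (by positivity)
    nlinarith
  have hDpos : 1 ≤ D := by
    have : (7 : ℝ) ≤ D := by linarith
    have h7 : 7 ≤ D := by exact_mod_cast this
    omega
  obtain ⟨d, rfl⟩ : ∃ d, D = d + 1 := ⟨D - 1, by omega⟩
  have hN : 4 * ((d + 1) * (Ln κ d + 1)) ≤ n := by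
    refine le_trans ?_ hD4
    unfold Ln
    have h1 : 1 ≤ κ * (d + 1) := Nat.one_le_iff_ne_zero.2 (by positivity)
    calc 4 * ((d + 1) * (2 * (κ * (d + 1)) + 1))
        ≤ 4 * ((d + 1) * (3 * (κ * (d + 1)))) := by
          apply Nat.mul_le_mul_left
          apply Nat.mul_le_mul_left
          omega
      _ = (d + 1) * (d + 1) * (12 * κ) := by ring
  have hlow := (index_lower2 hκ d).trans (ratIndex_mono (Lang2 κ) hN)
  have hlowR : ((Ln κ d : ℝ)) ^ (d + 1) ≤ ratIndex (Lang2 κ) n := by exact_mod_cast hlow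
  refine le_trans ?_ hlowR
  have hx : ((Ln κ d : ℕ) : ℝ) = 2 * (κ * ((d + 1 : ℕ) : ℝ)) := by
    unfold Ln
    push_cast
    ring
  set x : ℝ := (Ln κ d : ℝ) with hxdef
  have hx1 : κ * s / 2 ≤ x := by
    rw [hx]
    have := mul_le_mul_of_nonneg_left hD6 hκ0.le
    linarith
  have hks : (n : ℝ) ≤ (κ * s) * (κ * s) := by
    have h1 : (κ * s) * (κ * s) = κ * (κ * (s * s)) := by ring
    rw [h1, hs2, mul_div_cancel₀ _ hκ0.ne']
    nlinarith
  have hx0 : 0 < x := lt_of_lt_of_le (by positivity) hx1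
  have hx2 : (n : ℝ) / 4 ≤ x * x := by
    have := mul_le_mul hx1 hx1 (by positivity) hx0.le
    nlinarith
  have hx4 : (n : ℝ) ≤ x ^ 4 := by
    have h1 : (n : ℝ) / 4 * (n / 4) ≤ (x * x) * (x * x) :=
      mul_le_mul hx2 hx2 (by positivity) (by positivity)
    have h2 : x ^ 4 = (x * x) * (x * x) := by ring
    rw [h2]
    nlinarith
  have hlog : Real.logb 2 n ≤ 4 * Real.logb 2 x := by
    have h1 := Real.logb_le_logb_of_le (show (1 : ℝ) < 2 by norm_num) (by linarith) hx4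
    rwa [Real.logb_pow] at h1
  have hlog0 : 0 ≤ Real.logb 2 (n : ℝ) := Real.logb_nonneg (by norm_num) (by linarith)
  rw [← Real.rpow_natCast x (d + 1), ← rpow_two_logb hx0]
  refine Real.rpow_le_rpow_of_exponent_le (by norm_num) ?_
  calc 1 / 16 * s * Real.logb 2 n = (s / 4) * (Real.logb 2 n / 4) := by ring
    _ ≤ ((d + 1 : ℕ) : ℝ) * Real.logb 2 x := by
      refine mul_le_mul hD6 (by linarith) (by positivity) (by positivity)

theorem upper3 {κ : ℕ} (hκ : 1 ≤ κ) : ∀ᶠ n : ℕ in atTop,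
    (ratIndex (Lang2 κ) n : ℝ) ≤ (2 : ℝ) ^ (9 * √((n : ℝ) / κ) * Real.logb 2 n) := by
  filter_upwards [eventually_ge_atTop (784 * κ)] with n hn
  have hκ0 : (0 : ℝ) < κ := by exact_mod_cast hκ
  have hn16 : 784 ≤ n := le_trans (Nat.le_mul_of_pos_right _ hκ) hn
  have hnR : (784 : ℝ) ≤ n := by exact_mod_cast hn16
  set s := √((n : ℝ) / κ) with hs
  have hs28 : 28 ≤ s := by
    rw [hs]
    apply Real.le_sqrt_of_sq_le
    rw [le_div_iff₀ hκ0]
    have : ((784 * κ : ℕ) : ℝ) ≤ n := by exact_mod_cast hn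
    push_cast at this
    linarith
  have h1 := index_upper2 hκ n
  obtain ⟨r, hr⟩ : ∃ r, r = Nat.sqrt (n / κ) := ⟨_, rfl⟩
  have hr1 : r * r ≤ n / κ := hr ▸ Nat.sqrt_le _
  have hr2 : (r : ℝ) ≤ s := by
    rw [hs]
    apply Real.le_sqrt_of_sq_le
    rw [le_div_iff₀ hκ0]
    have h3 : r * r * κ ≤ n := (Nat.le_div_iff_mul_le hκ).1 hr1
    have : ((r * r * κ : ℕ) : ℝ) ≤ n := by exact_mod_cast h3
    push_cast at this
    nlinarith
  unfold UB2 at h1
  rw [← hr] at h1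
  have h2 : Bd n (2 * r + 3) ≤ (n ^ 4) ^ (2 * r + 3) := by
    refine (Bd_le n _ (by omega)).trans (Nat.pow_le_pow_left ?_ _)
    rw [pow_succ n 3, mul_comm]
    exact Nat.mul_le_mul_left _ (by omega)
  have h3 : 7 * n + 1 ≤ (n ^ 4) ^ (2 * r + 3) := by
    calc 7 * n + 1 ≤ n * n := by nlinarith
      _ = n ^ 2 := (pow_two n).symm
      _ ≤ n ^ (4 * (2 * r + 3)) := Nat.pow_le_pow_right (by omega) (by omega)
      _ = (n ^ 4) ^ (2 * r + 3) := by rw [pow_mul]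
  have h4 : ratIndex (Lang2 κ) n ≤ n ^ (4 * (2 * r + 3) + 1) := by
    rw [pow_succ, pow_mul]
    calc ratIndex (Lang2 κ) n ≤ (n ^ 4) ^ (2 * r + 3) + (n ^ 4) ^ (2 * r + 3) := by omega
      _ = (n ^ 4) ^ (2 * r + 3) * 2 := by ring
      _ ≤ (n ^ 4) ^ (2 * r + 3) * n := Nat.mul_le_mul_left _ (by omega)
  have h5 : (ratIndex (Lang2 κ) n : ℝ) ≤ (n : ℝ) ^ (4 * (2 * r + 3) + 1) := by exact_mod_cast h4
  refine h5.trans ?_
  have hlog0 : 0 ≤ Real.logb 2 (n : ℝ) := Real.logb_nonneg (by norm_num) (by linarith)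
  rw [← Real.rpow_natCast (n : ℝ) (4 * (2 * r + 3) + 1), ← rpow_two_logb (by linarith)]
  refine Real.rpow_le_rpow_of_exponent_le (by norm_num) ?_
  refine mul_le_mul_of_nonneg_right ?_ hlog0
  push_cast
  linarith

theorem superpoly2 {κ : ℕ} (hκ : 1 ≤ κ) : Superpolynomial (ratIndex (Lang2 κ)) := by
  refine superpoly_of fun K => ?_
  have hκ0 : (0 : ℝ) < κ := by exact_mod_cast hκ
  filter_upwards [lower2 hκ, eventually_ge_atTop (1 + (16 * K) ^ 2 * κ)] with n h1 h2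
  refine le_trans ?_ h1
  have hn1 : (1 : ℝ) ≤ n := by
    have : 1 ≤ n := by omega
    exact_mod_cast this
  rw [← Real.rpow_natCast (n : ℝ) K, ← rpow_two_logb (by linarith)]
  refine Real.rpow_le_rpow_of_exponent_le (by norm_num) ?_
  refine mul_le_mul_of_nonneg_right ?_ (Real.logb_nonneg (by norm_num) hn1)
  have h3 : (16 * (K : ℝ)) ≤ √((n : ℝ) / κ) := by
    apply Real.le_sqrt_of_sq_le
    rw [le_div_iff₀ hκ0]
    have : ((1 + (16 * K) ^ 2 * κ : ℕ) : ℝ) ≤ n := by exact_mod_cast h2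
    push_cast at this
    linarith
  linarith

theorem subexp2 {κ : ℕ} (hκ : 1 ≤ κ) : Subexponential (ratIndex (Lang2 κ)) := by
  refine subexp_of fun ε hε => ?_
  have hκ0 : (0 : ℝ) < κ := by exact_mod_cast hκ
  have hκ1 : (1 : ℝ) ≤ κ := by exact_mod_cast hκ
  filter_upwards [upper3 hκ, log_small (ε / 9) (by positivity), eventually_ge_atTop 1] with n h1 h2 h3
  have hn1 : (1 : ℝ) ≤ n := by exact_mod_cast h3
  refine h1.trans (Real.rpow_le_rpow_of_exponent_le (by norm_num) ?_)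
  have h4 : √((n : ℝ) / κ) ≤ √(n : ℝ) := Real.sqrt_le_sqrt (div_le_self (by positivity) hκ1)
  have h5 : √(n : ℝ) * √(n : ℝ) = n := Real.mul_self_sqrt (by positivity)
  have hlog0 : 0 ≤ Real.logb 2 (n : ℝ) := Real.logb_nonneg (by norm_num) hn1
  calc 9 * √((n : ℝ) / κ) * Real.logb 2 n ≤ 9 * √(n : ℝ) * (ε / 9 * √(n : ℝ)) := by
        refine mul_le_mul ?_ h2 hlog0 (by positivity)
        linarith
    _ = ε * (√(n : ℝ) * √(n : ℝ)) := by ring
    _ = ε * n := by rw [h5]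

/-! ### the geometric version -/

theorem lower1 : ∀ᶠ n : ℕ in atTop,
    (2 : ℝ) ^ (1 / 64 * Real.logb 2 n ^ 2) ≤ ratIndex Lang n := by
  filter_upwards [eventually_ge_atTop (2 ^ 20)] with n hn
  have hn0 : n ≠ 0 := by
    have : 0 < 2 ^ 20 := by positivity
    omega
  obtain ⟨l, hl⟩ : ∃ l, l = Nat.log 2 n := ⟨_, rfl⟩
  have hl20 : 20 ≤ l := hl ▸ (Nat.le_log_iff_pow_le (by norm_num) hn0).2 hn
  have h1 : 2 ^ l ≤ n := hl ▸ Nat.pow_log_le_self 2 hn0
  have h2 : n < 2 ^ (l + 1) := hl ▸ Nat.lt_pow_succ_log_self (by norm_num) n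
  obtain ⟨d, hd⟩ : ∃ d, d = (l - 3) / 2 := ⟨_, rfl⟩
  have hN : 4 * ((d + 1) * (2 ^ d + 1)) ≤ n := by
    have h3 : d + 1 ≤ 2 ^ d := Nat.lt_two_pow_self
    have h4 : 2 ^ d + 1 ≤ 2 ^ (d + 1) := by
      rw [pow_succ]
      have : 1 ≤ 2 ^ d := Nat.one_le_two_pow
      omega
    calc 4 * ((d + 1) * (2 ^ d + 1)) ≤ 4 * (2 ^ d * 2 ^ (d + 1)) :=
          Nat.mul_le_mul (le_refl _) (Nat.mul_le_mul h3 h4)
      _ = 2 ^ (2 * d + 3) := by ring
      _ ≤ 2 ^ l := Nat.pow_le_pow_right (by norm_num) (by omega)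
      _ ≤ n := h1
  have hlow := (index_lower (d := d) (by omega)).trans (ratIndex_mono Lang hN)
  have hlowR : (2 : ℝ) ^ (d * (d + 1)) ≤ ratIndex Lang n := by exact_mod_cast hlow
  refine le_trans ?_ hlowR
  rw [← Real.rpow_natCast (2 : ℝ) (d * (d + 1))]
  refine Real.rpow_le_rpow_of_exponent_le (by norm_num) ?_
  have hn1 : (1 : ℝ) ≤ n := by
    have : 1 ≤ n := by omega
    exact_mod_cast this
  have h5 : Real.logb 2 n ≤ l + 1 := by
    have h6 : (n : ℝ) ≤ 2 ^ (l + 1) := by exact_mod_cast h2.le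
    have h7 := Real.logb_le_logb_of_le (show (1 : ℝ) < 2 by norm_num) (by linarith) h6
    rw [Real.logb_pow, Real.logb_self_eq_one (by norm_num)] at h7
    push_cast at h7
    linarith
  have h8 : 0 ≤ Real.logb 2 (n : ℝ) := Real.logb_nonneg (by norm_num) hn1
  have h9 : ((l : ℝ) + 1) / 4 ≤ d := by
    have : l + 1 ≤ 4 * d := by omega
    have h10 : ((l + 1 : ℕ) : ℝ) ≤ ((4 * d : ℕ) : ℝ) := by exact_mod_cast this
    push_cast at h10
    linarith
  have h10 : Real.logb 2 n / 4 ≤ d := by linarith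
  push_cast
  have h11 : Real.logb 2 n / 4 * (Real.logb 2 n / 4) ≤ d * d :=
    mul_le_mul h10 h10 (by positivity) (by positivity)
  have h12 : (0 : ℝ) ≤ d := by positivity
  nlinarith

theorem upper1 : ∀ᶠ n : ℕ in atTop,
    (ratIndex Lang n : ℝ) ≤ (2 : ℝ) ^ (13 * Real.logb 2 n ^ 2) := by
  filter_upwards [eventually_ge_atTop (2 ^ 20)] with n hn
  have hn0 : n ≠ 0 := by
    have : 0 < 2 ^ 20 := by positivity
    omega
  obtain ⟨l, hl⟩ : ∃ l, l = Nat.log 2 n := ⟨_, rfl⟩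
  have hl20 : 20 ≤ l := hl ▸ (Nat.le_log_iff_pow_le (by norm_num) hn0).2 hn
  have h1 : 2 ^ l ≤ n := hl ▸ Nat.pow_log_le_self 2 hn0
  have h2 : ratIndex Lang n ≤ 2 ^ (3 * (l + 2) ^ 2 + 1) :=
    (index_upper n).trans (UB_le (by omega) hl.symm)
  have h3 : (ratIndex Lang n : ℝ) ≤ (2 : ℝ) ^ (3 * (l + 2) ^ 2 + 1) := by exact_mod_cast h2
  refine h3.trans ?_
  rw [← Real.rpow_natCast (2 : ℝ) (3 * (l + 2) ^ 2 + 1)]
  refine Real.rpow_le_rpow_of_exponent_le (by norm_num) ?_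
  have h4 : (l : ℝ) ≤ Real.logb 2 n := by
    have h6 : (2 : ℝ) ^ l ≤ n := by exact_mod_cast h1
    have h7 := Real.logb_le_logb_of_le (show (1 : ℝ) < 2 by norm_num) (by positivity) h6
    rwa [Real.logb_pow, Real.logb_self_eq_one (by norm_num), mul_one] at h7
  have h5 : (20 : ℝ) ≤ l := by exact_mod_cast hl20
  push_cast
  nlinarith

theorem superpoly1 : Superpolynomial (ratIndex Lang) := superpoly

theorem subexp1 : Subexponential (ratIndex Lang) := subexp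

end Pool.Agent.Y668.RI
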